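import Pool.Agent.H84.KBOX.Stmts

/-!
# The row of continuity of the board kbx: continuity of bounded functions which are polynomial along the lines
-/

set_option autoImplicit false

namespace Pool.KBX

open Finset Real MeasureTheory
open Pool.Agent.H49.Ent Pool.Agent.H32.Dense Pool.STK Pool.KAF Pool.KAL Pool.KS3

/-- Conditional form of the Gibbs variational inequality. -/
lemma cgvi {Ω S Λ : Type} [Fintype Ω] {p : Ω → ℝ} (hp : IsLaw p) (T : Ω → S) (lam : Ω → Λ)
    (F : Finset S) (f : Λ → S → ℝ) {M : ℝ} (hM : 0 < M) (hT : ∀ ω, 0 < p ω → T ω ∈ F)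
    (hs : ∀ ω, 0 < p ω → ∑ s ∈ F, Real.exp (f (lam ω) s) ≤ M) :
    Ex p (fun ω => f (lam ω) (T ω)) ≤ Real.log M - CH p T lam := by
  classical
  have h := CH_le_cross hp.nonneg hp.sum_one T lam
    (fun l s => if s ∈ F then Real.exp (f l s) / M else 0)
    (fun ω hω => by
      rw [if_pos (hT ω hω)]
      positivity)
    (fun _ s => by
      split_ifs
      · positivity
      · exact le_rfl)
    (fun ω hω G => by
      rw [← Finset.sum_filter, ← Finset.sum_div, div_le_one hM]
      refine le_trans ?_ (hs ω hω)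
      exact Finset.sum_le_sum_of_subset_of_nonneg
        (fun x hx => (Finset.mem_filter.mp hx).2) (fun x _ _ => (Real.exp_pos _).le))
  have h2 : Ex p (fun ω => -Real.log (if T ω ∈ F then Real.exp (f (lam ω) (T ω)) / M else 0)) =
      Real.log M - Ex p (fun ω => f (lam ω) (T ω)) := by
    have e : Real.log M = Ex p (fun _ => Real.log M) := (Ex_const hp.sum_one _).symm
    rw [e, ← Ex_sub]
    unfold Ex
    refine Finset.sum_congr rfl fun ω _ => ?_
    rcases (hp.nonneg ω).eq_or_lt with h0 | h0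
    · rw [← h0, zero_mul, zero_mul]
    · beta_reduce
      rw [if_pos (hT ω h0), Real.log_div (Real.exp_pos _).ne' hM.ne', Real.log_exp]
      ring
  rw [h2] at h
  linarith only [h]

section

variable {n : ℕ} {C₀ : ℝ} {Ω Λ Ξ : Type} [Fintype Ω] {p : Ω → ℝ} {lam : Ω → Λ}
  {x : Ω → Ξ} {T : Ξ → ℕ} {pos : Ξ → Option (Fin n) → ℕ} {A B : Λ → Option (Fin n) → ℝ}
  {L b : ℕ}

/-- The window of length `2 ^ (-b)`. -/
def tw (L b : ℕ) (x : Ω → Ξ) (T : Ξ → ℕ) (ω : Ω) : ℕ := T (x ω) / 2 ^ (L - b)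

lemma tw_lt (hleaf : Leaf n (2 ^ L) C₀ p lam x T pos A B) (hb : b ≤ L) (ω : Ω) :
    tw L b x T ω < 2 ^ b := by
  unfold tw
  rw [Nat.div_lt_iff_lt_mul (by positivity), ← pow_add]
  have : b + (L - b) = L := by omega
  rw [this]
  exact hleaf.T_lt ω

/-- The base cell given the line and the window. -/
lemma bc_le (hC₀ : 1 ≤ C₀) (hleaf : Leaf n (2 ^ L) C₀ p lam x T pos A B) :
    CH p (fun ω => bc L b pos (x ω)) (fun ω => (tw L b x T ω, lam ω)) ≤
      n * Real.log (2 * (3 * C₀ + 1) + 1) := by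
  classical
  have hp := hleaf.isLaw
  have hp0 := hp.nonneg
  have hM : ((2 ^ L : ℕ) : ℝ) = 2 ^ L := by push_cast; rfl
  set R : ℕ := 2 ^ (L - b) with hR0
  have hR : 1 ≤ R := Nat.one_le_two_pow
  set v : Ω → Fin n → ℤ := fun ω k => ((bc L b pos (x ω) k : ℕ) : ℤ) with hv
  have b1 : CH p (fun ω => bc L b pos (x ω)) (fun ω => (tw L b x T ω, lam ω)) ≤
      CH p v (fun ω => (tw L b x T ω, lam ω)) := by
    refine CH_mono_left hp0 ?_
    intro ω ω' _ _ h
    have h2 : v ω = v ω' := (Prod.ext_iff.mp h).1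
    funext i
    have h3 := congrFun h2 i
    simp only [hv] at h3
    exact_mod_cast h3
  have b2 := CH_le_vec hp0 hp.sum_one v (fun ω => (tw L b x T ω, lam ω))
    (fun _ => 3 * C₀ + 1) (by
      intro ω ω' hω hω' h k
      have h4 : T (x ω) / R = T (x ω') / R := (Prod.ext_iff.mp h).1
      have h3 : lam ω = lam ω' := (Prod.ext_iff.mp h).2
      set oi : Option (Fin n) := some k with hoi
      have h5 : |((T (x ω) : ℝ) - T (x ω'))| ≤ R := by
        have c1 := Nat.div_add_mod (T (x ω)) R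
        have c2 := Nat.div_add_mod (T (x ω')) R
        have c3 := Nat.mod_lt (T (x ω)) (by omega : R > 0)
        have c4 := Nat.mod_lt (T (x ω')) (by omega : R > 0)
        rw [h4] at c1
        have c5 : (T (x ω) : ℝ) = R * ((T (x ω') / R : ℕ) : ℝ) + ((T (x ω) % R : ℕ) : ℝ) := by
          exact_mod_cast c1.symm
        have c6 : (T (x ω') : ℝ) = R * ((T (x ω') / R : ℕ) : ℝ) +
            ((T (x ω') % R : ℕ) : ℝ) := by
          exact_mod_cast c2.symm
        have c7 : ((T (x ω) % R : ℕ) : ℝ) ≤ R := by exact_mod_cast c3.le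
        have c8 : ((T (x ω') % R : ℕ) : ℝ) ≤ R := by exact_mod_cast c4.le
        have c9 : (0 : ℝ) ≤ ((T (x ω) % R : ℕ) : ℝ) := Nat.cast_nonneg _
        have c10 : (0 : ℝ) ≤ ((T (x ω') % R : ℕ) : ℝ) := Nat.cast_nonneg _
        rw [c5, c6, abs_le]
        constructor <;> linarith
      have h6 : |(pos (x ω) oi : ℝ) - pos (x ω') oi| ≤ 3 * C₀ * R := by
        have d1 := hleaf.near ω oi
        have d2 := hleaf.near ω' oi
        rw [hM] at d1 d2
        rw [← h3] at d2
        have d3 := hleaf.B_le ω oi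
        have hMp : (0 : ℝ) < 2 ^ L := by positivity
        have d4 : |(pos (x ω) oi : ℝ) / 2 ^ L - (pos (x ω') oi : ℝ) / 2 ^ L| ≤
            2 * (C₀ / 2 ^ L) + |((T (x ω) : ℝ) - T (x ω')) / 2 ^ L * B (lam ω) oi| := by
          have d5 : (pos (x ω) oi : ℝ) / 2 ^ L - (pos (x ω') oi : ℝ) / 2 ^ L =
              ((pos (x ω) oi : ℝ) / 2 ^ L - (A (lam ω) oi + (T (x ω) : ℝ) / 2 ^ L *
                B (lam ω) oi)) -
              ((pos (x ω') oi : ℝ) / 2 ^ L - (A (lam ω) oi + (T (x ω') : ℝ) / 2 ^ L *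
                B (lam ω) oi)) +
              ((T (x ω) : ℝ) - T (x ω')) / 2 ^ L * B (lam ω) oi := by ring
          rw [d5]
          refine (abs_add_le _ _).trans (add_le_add ?_ le_rfl)
          rw [two_mul]
          exact (abs_sub _ _).trans (add_le_add d1 d2)
        have d6 : |((T (x ω) : ℝ) - T (x ω')) / 2 ^ L * B (lam ω) oi| ≤
            R / 2 ^ L * C₀ := by
          rw [abs_mul, abs_div, abs_of_pos hMp]
          exact mul_le_mul (by gcongr) d3 (abs_nonneg _) (by positivity)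
        have d7 : (pos (x ω) oi : ℝ) / 2 ^ L - (pos (x ω') oi : ℝ) / 2 ^ L =
            ((pos (x ω) oi : ℝ) - pos (x ω') oi) / 2 ^ L := by ring
        rw [d7, abs_div, abs_of_pos hMp] at d4
        have d8 : |(pos (x ω) oi : ℝ) - pos (x ω') oi| / 2 ^ L ≤
            (3 * C₀ * R) / 2 ^ L := by
          refine d4.trans ((add_le_add le_rfl d6).trans ?_)
          have d9 : 2 * (C₀ / 2 ^ L) + R / 2 ^ L * C₀ = (2 * C₀ + R * C₀) / 2 ^ L := by ring
          rw [d9]
          refine div_le_div_of_nonneg_right ?_ hMp.le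
          have d10 : (1 : ℝ) ≤ R := by exact_mod_cast hR
          nlinarith only [d10, hC₀]
        exact (div_le_div_iff_of_pos_right hMp).mp d8
      simp only [hv, bc, sce]
      exact div_diff (by omega) h6)
  exact by
   rw [Ex_const hp.sum_one] at b2
   exact b1.trans b2

/-- The time given the line and the window. -/
lemma tw_def (hleaf : Leaf n (2 ^ L) C₀ p lam x T pos A B) (hb : b ≤ L) {e₁ : ℝ}
    (he : L * Real.log 2 - CH p (fun ω => T (x ω)) lam ≤ e₁) :
    b * Real.log 2 - CH p (tw L b x T) lam ≤ e₁ := by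
  classical
  have hp := hleaf.isLaw
  have hp0 := hp.nonneg
  have a1 := CH_le_add hp0 (fun ω => T (x ω)) (tw L b x T) lam
  have a2 := CH_le_card hp0 hp.sum_one (fun ω => T (x ω)) (fun ω => (tw L b x T ω, lam ω))
    (fun w => (Finset.range (2 ^ (L - b))).image fun r => 2 ^ (L - b) * w.1 + r) (by
      intro ω _
      rw [Finset.mem_image]
      refine ⟨T (x ω) % 2 ^ (L - b), Finset.mem_range.2 (Nat.mod_lt _ (by positivity)), ?_⟩
      exact Nat.div_add_mod _ _)
  have a3 : Ex p (fun ω => Real.log (((Finset.range (2 ^ (L - b))).image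
      fun r => 2 ^ (L - b) * (tw L b x T ω, lam ω).1 + r).card : ℝ)) =
      ((L - b : ℕ) : ℝ) * Real.log 2 := by
    have : ∀ ω, (((Finset.range (2 ^ (L - b))).image
        fun r => 2 ^ (L - b) * (tw L b x T ω, lam ω).1 + r).card : ℝ) = 2 ^ (L - b) := by
      intro ω
      rw [Finset.card_image_of_injective _ (add_right_injective _), Finset.card_range]
      push_cast
      rfl
    simp only [this]
    rw [Ex_const hp.sum_one, Real.log_pow]
  rw [a3, Nat.cast_sub hb] at a2
  linarith only [he, a1, a2]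

/-- The digits of `ψ` given the line and the window. -/
lemma dg_le {d : ℕ} (hC₀ : 1 ≤ C₀) {C : ℝ} (hC : 1 ≤ C)
    (hcro : ∀ (N R : ℕ) (P : Polynomial ℝ) (S : Finset ℕ)
    (v : ℕ → ℤ), 1 ≤ N → 1 ≤ R → P.natDegree ≤ d → (∀ t ∈ S, t < N * R) →
    (∀ t ∈ S, |(v t : ℝ) - N * P.eval ((t : ℝ) / (N * R))| ≤ C₀ + 2) →
    (∀ t ∈ S, |(v t : ℝ)| ≤ (C₀ + 2) * N) →
    ∑ k ∈ range N, (((S.filter fun t => t / R = k).image v).card : ℝ) ≤ C * N)
    (hleaf : Leaf n (2 ^ L) C₀ p lam x T pos A B) (hb : b ≤ L) {ψ : Ξ → ℝ}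
    {P : Λ → Polynomial ℝ} (hP : PL L d b C₀ p lam x T ψ P) :
    CH p (fun ω => dg b ψ (x ω)) (fun ω => (tw L b x T ω, lam ω)) ≤
      b * Real.log 2 - CH p (tw L b x T) lam + Real.log (1 + C) + Real.log (2 * C₀ + 5) := by
  classical
  have hp := hleaf.isLaw
  have hp0 := hp.nonneg
  set R : ℕ := 2 ^ (L - b) with hR0
  set N : ℕ := 2 ^ b with hN0
  have hR : 1 ≤ R := Nat.one_le_two_pow
  have hN : 1 ≤ N := Nat.one_le_two_pow
  have hNR : N * R = 2 ^ L := by
    rw [hN0, hR0, ← pow_add]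
    congr 1
    omega
  have hN' : (N : ℝ) = 2 ^ b := by rw [hN0]; push_cast; rfl
  have hNR' : (N : ℝ) * R = 2 ^ L := by exact_mod_cast hNR
  have hNpos : (0 : ℝ) < N := by exact_mod_cast hN
  -- times and values on a line
  set S : Λ → Finset ℕ := fun l =>
    ((Finset.univ : Finset Ω).filter fun ω => 0 < p ω ∧ lam ω = l).image fun ω => T (x ω) with hS
  set v : Λ → ℕ → ℤ := fun l t => ⌊(N : ℝ) * (P l).eval ((t : ℝ) / (N * R))⌋ with hv
  have hv1 : ∀ l t, |(v l t : ℝ) - N * (P l).eval ((t : ℝ) / (N * R))| ≤ 1 := by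
    intro l t
    have h1 := Int.floor_le ((N : ℝ) * (P l).eval ((t : ℝ) / (N * R)))
    have h2 := Int.lt_floor_add_one ((N : ℝ) * (P l).eval ((t : ℝ) / (N * R)))
    simp only [hv]
    rw [abs_le]
    constructor <;> linarith
  set m : Λ → ℕ → ℕ := fun l k => (((S l).filter fun t => t / R = k).image (v l)).card with hm
  have hmsum : ∀ l, ∑ k ∈ range N, (m l k : ℝ) ≤ C * N := by
    intro l
    refine hcro N R (P l) (S l) (v l) hN hR (hP.deg l) ?_ ?_ ?_
    · intro t ht
      obtain ⟨ω, hω, rfl⟩ := Finset.mem_image.mp ht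
      rw [hNR]
      exact hleaf.T_lt ω
    · intro t _
      exact (hv1 l t).trans (by linarith only [hC₀])
    · intro t ht
      obtain ⟨ω, hω, rfl⟩ := Finset.mem_image.mp ht
      obtain ⟨-, h1, h2⟩ := Finset.mem_filter.mp hω
      have h3 := hP.line ω h1
      have h4 := hP.bound ω h1
      rw [h2] at h3
      have h5 := hv1 l (T (x ω))
      rw [hNR'] at h5
      have h6 : |(P l).eval ((T (x ω) : ℝ) / 2 ^ L)| ≤ 1 + C₀ / 2 ^ b := by
        have := abs_sub_abs_le_abs_sub ((P l).eval ((T (x ω) : ℝ) / 2 ^ L)) (ψ (x ω))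
        rw [abs_sub_comm] at this
        linarith only [h3, h4, this]
      have h7 : |(v l (T (x ω)) : ℝ)| ≤ 1 + |N * (P l).eval ((T (x ω) : ℝ) / 2 ^ L)| := by
        have := abs_sub_abs_le_abs_sub (v l (T (x ω)) : ℝ)
          (N * (P l).eval ((T (x ω) : ℝ) / 2 ^ L))
        linarith only [h5, this]
      rw [abs_mul, abs_of_pos hNpos] at h7
      have h8 : (N : ℝ) * |(P l).eval ((T (x ω) : ℝ) / 2 ^ L)| ≤ N * (1 + C₀ / 2 ^ b) :=
        mul_le_mul_of_nonneg_left h6 hNpos.le
      have h9 : (N : ℝ) * (1 + C₀ / 2 ^ b) = N + C₀ := by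
        rw [hN']
        field_simp
      have h10 : (1 : ℝ) ≤ N := by exact_mod_cast hN
      nlinarith only [h7, h8, h9, h10, hC₀]
  -- the values of `dg`
  exact by
   set c : ℕ := ⌈C₀⌉₊ + 1 with hc
   have hcC : (c : ℝ) ≤ C₀ + 2 := by
     rw [hc]
     push_cast
     have := Nat.ceil_lt_add_one (by linarith only [hC₀] : 0 ≤ C₀)
     linarith only [this]
   set F : ℕ × Λ → Finset ℤ := fun w =>
     (((S w.2).filter fun t => t / R = w.1).image (v w.2)).biUnion
       fun y => Finset.Icc (y - c) (y + c) with hF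
   have hmem : ∀ ω, 0 < p ω → v (lam ω) (T (x ω)) ∈
       ((S (lam ω)).filter fun t => t / R = tw L b x T ω).image (v (lam ω)) := by
     intro ω hω
     refine Finset.mem_image_of_mem _ (Finset.mem_filter.2 ⟨?_, rfl⟩)
     exact Finset.mem_image.2 ⟨ω, Finset.mem_filter.2 ⟨Finset.mem_univ _, hω, rfl⟩, rfl⟩
   have b1 := CH_le_card hp0 hp.sum_one (fun ω => dg b ψ (x ω)) (fun ω => (tw L b x T ω, lam ω)) F
     (by
       intro ω hω
       simp only [hF, Finset.mem_biUnion]
       refine ⟨v (lam ω) (T (x ω)), hmem ω hω, ?_⟩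
       have h1 := hP.line ω hω
       have h2 := hv1 (lam ω) (T (x ω))
       rw [hNR'] at h2
       have h3 : |(dg b ψ (x ω) : ℝ) - 2 ^ b * ψ (x ω)| ≤ 1 := by
         have h4 := Int.floor_le ((2 : ℝ) ^ b * ψ (x ω))
         have h5 := Int.lt_floor_add_one ((2 : ℝ) ^ b * ψ (x ω))
         unfold dg
         rw [abs_le]
         constructor <;> linarith
       have h6 : |(2 : ℝ) ^ b * ψ (x ω) - N * (P (lam ω)).eval ((T (x ω) : ℝ) / 2 ^ L)| ≤ C₀ := by
         rw [hN', ← mul_sub, abs_mul, abs_of_pos (by positivity : (0 : ℝ) < 2 ^ b)]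
         have := mul_le_mul_of_nonneg_left h1 (by positivity : (0 : ℝ) ≤ 2 ^ b)
         refine this.trans (le_of_eq ?_)
         field_simp
       have h7 : |((dg b ψ (x ω) - v (lam ω) (T (x ω)) : ℤ) : ℝ)| < c + 1 := by
         -- use the floor of both numbers
         have e1 := Int.floor_le ((2 : ℝ) ^ b * ψ (x ω))
         have e2 := Int.lt_floor_add_one ((2 : ℝ) ^ b * ψ (x ω))
         have e3 := Int.floor_le ((N : ℝ) * (P (lam ω)).eval ((T (x ω) : ℝ) / (N * R)))
         have e4 := Int.lt_floor_add_one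
           ((N : ℝ) * (P (lam ω)).eval ((T (x ω) : ℝ) / (N * R)))
         have e5 := Nat.le_ceil C₀
         simp only [dg, hv, hc]
         rw [hNR'] at e3 e4
         rw [hNR']
         push_cast
         rw [abs_le] at h6
         rw [abs_lt]
         constructor <;> linarith [h6.1, h6.2]
       have h8 : |dg b ψ (x ω) - v (lam ω) (T (x ω))| < (c : ℤ) + 1 := by exact_mod_cast h7
       rw [abs_lt] at h8
       rw [Finset.mem_Icc]
       constructor <;> linarith only [h8, h8.1, h8.2])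
   exact by
    have b2 : Ex p (fun ω => Real.log ((F (tw L b x T ω, lam ω)).card)) ≤
        Ex p (fun ω => Real.log (max 1 (m (lam ω) (tw L b x T ω) : ℝ)) +
          Real.log (2 * C₀ + 5)) := by
      refine Ex_mono hp0 fun ω hω => ?_
      have h1 : ((F (tw L b x T ω, lam ω)).card : ℝ) ≤
          (m (lam ω) (tw L b x T ω) : ℝ) * (2 * C₀ + 5) := by
        have h2 : (F (tw L b x T ω, lam ω)).card ≤
            m (lam ω) (tw L b x T ω) * (2 * c + 1) := by
          simp only [hF, hm]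
          refine (Finset.card_biUnion_le_card_mul _ _ (2 * c + 1) ?_)
          intro y _
          rw [Int.card_Icc]
          omega
        have h3 : ((F (tw L b x T ω, lam ω)).card : ℝ) ≤
            (m (lam ω) (tw L b x T ω) : ℝ) * (2 * c + 1) := by exact_mod_cast h2
        refine h3.trans (mul_le_mul_of_nonneg_left (by linarith only [hcC]) (Nat.cast_nonneg _))
      have h4 : 1 ≤ m (lam ω) (tw L b x T ω) := Finset.card_pos.2 ⟨_, hmem ω hω⟩
      have h5 : (1 : ℝ) ≤ m (lam ω) (tw L b x T ω) := by exact_mod_cast h4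
      rw [max_eq_right h5, ← Real.log_mul (by linarith only [h5]) (by linarith only [hC₀])]
      rcases (Nat.cast_nonneg ((F (tw L b x T ω, lam ω)).card) :
        (0 : ℝ) ≤ ((F (tw L b x T ω, lam ω)).card : ℝ)).eq_or_lt with h6 | h6
      · rw [← h6, Real.log_zero]
        refine Real.log_nonneg ?_
        nlinarith only [h5, hC₀]
      · exact Real.log_le_log h6 h1
    have b3 := cgvi hp (tw L b x T) lam (Finset.range N)
      (fun l k => Real.log (max 1 (m l k : ℝ))) (M := (1 + C) * N) (by positivity)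
      (fun ω _ => Finset.mem_range.2 (tw_lt hleaf hb ω))
      (by
        intro ω _
        have h1 : ∀ k ∈ range N, Real.exp (Real.log (max 1 (m (lam ω) k : ℝ))) ≤
            1 + (m (lam ω) k : ℝ) := by
          intro k _
          rw [Real.exp_log (by positivity)]
          exact max_le (by linarith only [(Nat.cast_nonneg (m (lam ω) k) : (0 : ℝ) ≤ _)])
            (by linarith only)
        refine (Finset.sum_le_sum h1).trans ?_
        rw [Finset.sum_add_distrib, Finset.sum_const, Finset.card_range, nsmul_eq_mul, mul_one]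
        have := hmsum (lam ω)
        linarith only [this])
    exact by
     rw [Ex_add, Ex_const hp.sum_one] at b2
     have b4 : Real.log ((1 + C) * N) = Real.log (1 + C) + b * Real.log 2 := by
       rw [Real.log_mul (by positivity) hNpos.ne', hN', Real.log_pow]
     rw [b4] at b3
     linarith only [b1, b2, b3]

end

theorem con_thm (hcro : CROStmt) : CONStmt := by
  classical
  intro n d C₀ hC₀
  obtain ⟨C₁, hC₁, hmkc⟩ := mkc_thm n C₀ hC₀
  obtain ⟨C₂, hC₂, hfull⟩ := full_thm n C₀ hC₀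
  obtain ⟨C₃, hC₃, hcro'⟩ := hcro d (C₀ + 2) (by linarith only [hC₀])
  have hn0 : (0 : ℝ) ≤ n := Nat.cast_nonneg n
  obtain ⟨C₄, hC₄⟩ : ∃ C₄, C₄ = Real.log (1 + C₃) + Real.log (2 * C₀ + 5) +
    n * Real.log (2 * (3 * C₀ + 1) + 1) := ⟨_, rfl⟩
  have hC₄0 : 0 ≤ C₄ := by
    have h1 : 0 ≤ Real.log (1 + C₃) := Real.log_nonneg (by linarith only [hC₃])
    have h2 : 0 ≤ Real.log (2 * C₀ + 5) := Real.log_nonneg (by linarith only [hC₀])
    have h3 : 0 ≤ Real.log (2 * (3 * C₀ + 1) + 1) := Real.log_nonneg (by linarith only [hC₀])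
    rw [hC₄]
    positivity
  refine ⟨1 + 3 * n + C₁ + C₂ + n * C₄, by nlinarith only [hC₁, hC₂, hn0, hC₄0, mul_nonneg hn0 hC₄0], ?_⟩
  intro Ω Λ Ξ _ p lam x T pos A B L κ γ b δ ε e₁ e₃ ψ P hLF hb hP
  have hleaf := hLF.leaf
  have hp := hleaf.isLaw
  have hp0 := hp.nonneg
  have hM : ((2 ^ L : ℕ) : ℝ) = 2 ^ L := by push_cast; rfl
  have hW : 1 ≤ W0 L κ γ ε := by
    unfold W0
    have h1 : (0 : ℝ) ≤ (L : ℝ) / κ := by positivity
    have h2 : 0 ≤ ε * L := mul_nonneg hLF.ε_nonneg (Nat.cast_nonneg _)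
    have h3 : (0 : ℝ) ≤ γ := Nat.cast_nonneg _
    have h4 : (0 : ℝ) ≤ κ := Nat.cast_nonneg _
    linarith only [h1, h2]
  have hW' : (L : ℝ) / κ + γ + κ + 1 + ε * L = W0 L κ γ ε := rfl
  have hlR : Real.log ((2 ^ (L - b) : ℕ) : ℝ) = (L - b) * Real.log 2 := by
    push_cast
    rw [Real.log_pow, Nat.cast_sub hb]
  -- (2): the cells are almost uniformly distributed
  exact by
   have f1 := hfull Ω Λ Ξ p lam x T pos A B 1 (2 ^ L) L κ γ δ ε e₁ (fun _ => ε) (by ring) le_rfl
     hleaf hLF.δ_pos (fun _ => hLF.ε_nonneg) (by rw [Ex_const hp.sum_one]) hLF.ncf hLF.det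
     hLF.κ_pos hLF.time
   rw [hM, Real.log_pow, hW'] at f1
   have f2 : CH p (fun ω => bas pos (x ω)) (fun ω => cel (2 ^ L) pos (x ω)) ≤
       H p (fun ω => bc L b pos (x ω)) + n * ((L - b) * Real.log 2) := by
     have a0 : CH p (fun ω => bas pos (x ω)) (fun ω => cel (2 ^ L) pos (x ω)) ≤
         CH p (fun ω => bas pos (x ω)) (fun _ => ()) :=
       CH_mono_cond hp0 (fun _ _ _ _ _ => rfl)
     have a1 := CH_le_add hp0 (fun ω => bas pos (x ω)) (fun ω => bc L b pos (x ω)) (fun _ => ())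
     have a2 : CH p (fun ω => bc L b pos (x ω)) (fun _ => ()) ≤
         H p (fun ω => bc L b pos (x ω)) := by
       unfold CH
       rw [H_const hp.sum_one, sub_zero]
       exact H_mono hp0 (fun ω ω' _ _ h => Prod.ext h rfl)
     have a3 := CH_le_card hp0 hp.sum_one (fun ω => bas pos (x ω))
       (fun ω => (bc L b pos (x ω), ()))
       (fun w => Fintype.piFinset fun i => (Finset.range (2 ^ (L - b))).image
         fun r => 2 ^ (L - b) * w.1 i + r) (by
         intro ω _
         rw [Fintype.mem_piFinset]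
         intro i
         rw [Finset.mem_image]
         refine ⟨pos (x ω) (some i) % 2 ^ (L - b),
           Finset.mem_range.2 (Nat.mod_lt _ (by positivity)), ?_⟩
         exact Nat.div_add_mod _ _)
     have a4 : ∀ ω, (((Fintype.piFinset fun i => (Finset.range (2 ^ (L - b))).image
         fun r => 2 ^ (L - b) * (bc L b pos (x ω), ()).1 i + r) : Finset (Fin n → ℕ)).card : ℝ) =
         ((2 ^ (L - b) : ℕ) : ℝ) ^ n := by
       intro ω
       rw [Fintype.card_piFinset]
       have : ∀ i : Fin n, ((Finset.range (2 ^ (L - b))).image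
           fun r => 2 ^ (L - b) * (bc L b pos (x ω), ()).1 i + r).card = 2 ^ (L - b) := by
         intro i
         rw [Finset.card_image_of_injective _ (add_right_injective _), Finset.card_range]
       rw [Finset.prod_congr rfl fun i _ => this i, Finset.prod_const, Finset.card_univ,
         Fintype.card_fin]
       push_cast
       rfl
     simp only [a4] at a3
     rw [Ex_const hp.sum_one, Real.log_pow, hlR] at a3
     linarith only [a0, a1, a2, a3]
   exact by
    have g2 : n * (b * Real.log 2) - H p (fun ω => bc L b pos (x ω)) ≤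
        n * e₁ + C₂ * W0 L κ γ ε := by
      have : (n : ℝ) * (L * Real.log 2) = n * (b * Real.log 2) + n * ((L - b) * Real.log 2) := by
        ring
      linarith only [f1, f2]
    -- (1)
    have h1 := hmkc Ω ((Fin n → ℕ) × ℤ) Λ Ξ p L κ γ δ ε x (fun _ => ε) (fun ω => bas pos (x ω))
      (fun ω => T (x ω)) (fun ω => (bc L b pos (x ω), dg b ψ (x ω))) lam (fun a i => A a (some i))
      (fun a i => B a (some i)) hp hleaf.T_lt
      (fun ω ω' _ _ h => by simp only at h ⊢; rw [h])
      (fun ω ω' _ _ h => by simp only at h ⊢; rw [h])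
      (fun ω ω' _ _ h => by simp only at h ⊢; rw [h])
      (by
        intro ω _ i
        have := hleaf.near ω (some i)
        rw [hM] at this
        exact this)
      (fun ω i => hleaf.B_le ω (some i)) hLF.δ_pos (fun _ => hLF.ε_nonneg)
      (by rw [Ex_const hp.sum_one]) hLF.ncf hLF.det hLF.κ_pos
    rw [hW'] at h1
    set c' : Ω → (Fin n → ℕ) × ℤ := fun ω => (bc L b pos (x ω), dg b ψ (x ω)) with hc'
    -- the label given the line
    have h2 : CH p c' lam ≤ b * Real.log 2 + e₁ + C₄ := by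
      have a1 := CH_le_add hp0 c' (tw L b x T) lam
      have a2 : CH p (tw L b x T) lam ≤ b * Real.log 2 := by
        have b1 := CH_le_card hp0 hp.sum_one (tw L b x T) lam (fun _ => Finset.range (2 ^ b))
          (fun ω _ => Finset.mem_range.2 (tw_lt hleaf hb ω))
        rw [Ex_const hp.sum_one, Finset.card_range] at b1
        push_cast at b1
        rw [Real.log_pow] at b1
        exact b1
      have a3 := CH_subadd hp0 (fun ω => bc L b pos (x ω)) (fun ω => dg b ψ (x ω))
        (fun ω => (tw L b x T ω, lam ω))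
      have a4 := bc_le (b := b) hC₀ hleaf
      have a5 := dg_le hC₀ hC₃ hcro' hleaf hb hP
      have a6 := tw_def hleaf hb hLF.time
      rw [hC₄]
      linarith only [a1, a2, a3, a4, a5, a6]
    exact by
     have h3 : CH p (fun ω => T (x ω)) lam ≤
         CH p (fun ω => T (x ω)) (fun ω => (lam ω, c' ω)) + CH p c' lam := by
       have a1 := CH_le_add hp0 (fun ω => T (x ω)) c' lam
       have a2 : CH p (fun ω => T (x ω)) (fun ω => (c' ω, lam ω)) =
           CH p (fun ω => T (x ω)) (fun ω => (lam ω, c' ω)) := by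
         refine CH_congr hp0 (fun _ _ _ _ h => (Prod.ext_iff.mp h).1)
           (fun _ _ _ _ h => (Prod.ext_iff.mp h).1) ?_ ?_ <;>
         · intro w w' _ _ h
           simp only [Prod.mk.injEq] at h ⊢
           tauto
       linarith only [a1, a2]
     have h4 : CH p (fun ω => bas pos (x ω)) c' ≤ H p x - H p c' := by
       unfold CH
       have : H p (fun ω => (bas pos (x ω), c' ω)) ≤ H p x := by
         refine H_mono hp0 ?_
         intro ω ω' _ _ h
         simp only [hc', h]
       linarith only [this]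
     have h5 := hLF.time
     have h6 := hLF.thin
     have h7 : n * (L * Real.log 2 - e₁ - (b * Real.log 2 + e₁ + C₄)) ≤
         n * CH p (fun ω => T (x ω)) (fun ω => (lam ω, c' ω)) :=
       mul_le_mul_of_nonneg_left (by linarith only [h2, h3, h5]) hn0
     have h8 : H p c' ≤ n * (b * Real.log 2) + e₃ + 2 * n * e₁ + n * C₄ + C₁ * W0 L κ γ ε := by
       have : n * (L * Real.log 2 - e₁ - (b * Real.log 2 + e₁ + C₄)) =
           n * (L * Real.log 2) - n * (b * Real.log 2) - 2 * n * e₁ - n * C₄ := by ring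
       linarith only [h1, h4, h6, h7]
     have h9 : CH p (fun ω => dg b ψ (x ω)) (fun ω => bc L b pos (x ω)) ≤
         H p c' - H p (fun ω => bc L b pos (x ω)) := by
       unfold CH
       have : H p (fun ω => (dg b ψ (x ω), bc L b pos (x ω))) ≤ H p c' := by
         refine H_mono hp0 ?_
         intro ω ω' _ _ h
         simp only [hc', Prod.mk.injEq] at h ⊢
         tauto
       linarith only [this]
     exact by
      have he₁ := hLF.e₁_nonneg
      have he₃ := hLF.e₃_nonneg
      have k1 : 0 ≤ n * C₄ * (W0 L κ γ ε - 1) :=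
        mul_nonneg (mul_nonneg hn0 hC₄0) (by linarith only [hW])
      have k2 : 0 ≤ (n : ℝ) * W0 L κ γ ε := mul_nonneg hn0 (by linarith only [hW])
      have k3 : 0 ≤ (n : ℝ) * e₁ := mul_nonneg hn0 he₁
      have k4 : 0 ≤ (n : ℝ) * e₃ := mul_nonneg hn0 he₃
      have k5 : 0 ≤ C₁ * e₁ := mul_nonneg hC₁ he₁
      have k6 : 0 ≤ C₁ * e₃ := mul_nonneg hC₁ he₃
      have k7 : 0 ≤ C₂ * e₁ := mul_nonneg hC₂ he₁
      have k8 : 0 ≤ C₂ * e₃ := mul_nonneg hC₂ he₃
      have k9 : 0 ≤ n * C₄ * e₁ := mul_nonneg (mul_nonneg hn0 hC₄0) he₁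
      have k10 : 0 ≤ n * C₄ * e₃ := mul_nonneg (mul_nonneg hn0 hC₄0) he₃
      have k11 : 0 ≤ C₁ * W0 L κ γ ε := mul_nonneg hC₁ (by linarith only [hW])
      have k12 : 0 ≤ C₂ * W0 L κ γ ε := mul_nonneg hC₂ (by linarith only [hW])
      constructor
      · refine h9.trans ?_
        have : (1 + 3 * n + C₁ + C₂ + n * C₄) * (e₁ + e₃ + W0 L κ γ ε) =
          e₁ + e₃ + W0 L κ γ ε + 3 * (n * e₁) + 3 * (n * e₃) + 3 * (n * W0 L κ γ ε) +
          C₁ * e₁ + C₁ * e₃ + C₁ * W0 L κ γ ε + C₂ * e₁ + C₂ * e₃ + C₂ * W0 L κ γ ε +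
          n * C₄ * e₁ + n * C₄ * e₃ + (n * C₄ * (W0 L κ γ ε - 1) + n * C₄) := by ring
        rw [this]
        linarith only [hW, f1, f2, h1, h4, h6, h7, he₁, k1, k2, k4, k5, k6, k7, k8, k9, k10]
      · refine g2.trans ?_
        have : (1 + 3 * n + C₁ + C₂ + n * C₄) * (e₁ + W0 L κ γ ε) =
          e₁ + W0 L κ γ ε + 3 * (n * e₁) + 3 * (n * W0 L κ γ ε) +
          C₁ * e₁ + C₁ * W0 L κ γ ε + C₂ * e₁ + C₂ * W0 L κ γ ε +
          n * C₄ * e₁ + (n * C₄ * (W0 L κ γ ε - 1) + n * C₄) := by ring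
        rw [this]
        have : 0 ≤ n * C₄ := mul_nonneg hn0 hC₄0
        linarith only [hW, he₁, k1, k2, k3, k5, k7, k9, k11, this]

end Pool.KBX
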