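import Pool.Agent.H84.KBOX.Stmts
import Pool.Agent.H33.KAL.RMG
import Pool.Agent.H68.KAL.RIM
import Pool.Agent.H99.KAL.GVI
import Pool.Agent.H97.KAL.CDF

/-!
# Row SUP of the board kbx: the coefficients of the line polynomials are mostly small
-/

set_option autoImplicit false

namespace Pool.KBX

open Finset Real MeasureTheory
open Pool.Agent.H49.Ent Pool.Agent.H32.Dense Pool.STK Pool.KAF Pool.KAL Pool.KS3

/-- A coefficient is controlled by one of the values on `[0, 1]`. -/
lemma coeff_node (d : ℕ) : ∃ C : ℝ, 1 ≤ C ∧ ∀ P : Polynomial ℝ, P.natDegree ≤ d → ∀ i,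
    0 < |P.coeff i| → ∃ s ∈ Set.Icc (0 : ℝ) 1, |P.coeff i| / C ≤ |P.eval s| := by
  classical
  set v : ℕ → ℝ := fun j => (j : ℝ) / (d + 1) with hv
  have hd : (0 : ℝ) < d + 1 := by positivity
  set s : Finset ℕ := range (d + 1) with hs
  have hinj : Set.InjOn v s := by
    intro a _ a' _ h
    simp only [hv] at h
    have := (div_left_inj' hd.ne').mp h
    exact_mod_cast this
  set c : ℕ → ℕ → ℝ := fun i j => |(Lagrange.basis s v j).coeff i| with hc
  refine ⟨1 + ∑ i ∈ range (d + 1), ∑ j ∈ s, c i j, ?_, ?_⟩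
  · have : 0 ≤ ∑ i ∈ range (d + 1), ∑ j ∈ s, c i j :=
      Finset.sum_nonneg fun i _ => Finset.sum_nonneg fun j _ => abs_nonneg _
    linarith
  intro P hP i hi
  set C : ℝ := 1 + ∑ i ∈ range (d + 1), ∑ j ∈ s, c i j with hC
  have hS : 0 ≤ ∑ i ∈ range (d + 1), ∑ j ∈ s, c i j :=
    Finset.sum_nonneg fun i _ => Finset.sum_nonneg fun j _ => abs_nonneg _
  have hC1 : 1 ≤ C := by linarith only [hS]
  by_contra hcon
  push Not at hcon
  have hid : i < d + 1 := by
    by_contra h
    have h1 : P.coeff i = 0 := Polynomial.coeff_eq_zero_of_natDegree_lt (by omega)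
    rw [h1, abs_zero] at hi
    exact lt_irrefl _ hi
  have hval : ∀ j ∈ s, |P.eval (v j)| ≤ |P.coeff i| / C := by
    intro j hj
    refine (hcon (v j) ⟨by positivity, ?_⟩).le
    simp only [hv]
    rw [div_le_one hd]
    have := Finset.mem_range.1 hj
    have h2 : (j : ℝ) ≤ d := by exact_mod_cast (by omega : j ≤ d)
    linarith only [h2]
  have hdeg : P.degree < s.card := by
    rw [hs, Finset.card_range]
    refine lt_of_le_of_lt Polynomial.degree_le_natDegree ?_
    exact_mod_cast Nat.lt_succ_of_le hP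
  have hint := Lagrange.eq_interpolate (s := s) (v := v) hinj hdeg
  have hco : P.coeff i = ∑ j ∈ s, P.eval (v j) * (Lagrange.basis s v j).coeff i := by
    conv_lhs => rw [hint]
    rw [Lagrange.interpolate_apply, Polynomial.finsetSum_coeff]
    refine Finset.sum_congr rfl fun j _ => ?_
    rw [Polynomial.coeff_C_mul]
  have h1 : |P.coeff i| ≤ ∑ j ∈ s, |P.coeff i| / C * c i j := by
    conv_lhs => rw [hco]
    refine (Finset.abs_sum_le_sum_abs _ _).trans (Finset.sum_le_sum fun j hj => ?_)
    rw [abs_mul]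
    exact mul_le_mul_of_nonneg_right (hval j hj) (abs_nonneg _)
  rw [← Finset.mul_sum] at h1
  have h2 : ∑ j ∈ s, c i j ≤ C - 1 := by
    have : ∑ j ∈ s, c i j ≤ ∑ i ∈ range (d + 1), ∑ j ∈ s, c i j :=
      Finset.single_le_sum (f := fun i => ∑ j ∈ s, c i j)
        (fun i _ => Finset.sum_nonneg fun j _ => abs_nonneg _) (Finset.mem_range.2 hid)
    linarith only [this]
  have h3 : |P.coeff i| / C * ∑ j ∈ s, c i j ≤ |P.coeff i| / C * (C - 1) :=
    mul_le_mul_of_nonneg_left h2 (by positivity)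
  have h4 : |P.coeff i| / C * (C - 1) = |P.coeff i| - |P.coeff i| / C := by
    have : C ≠ 0 := by linarith only [hS]
    field_simp
  have h5 : 0 < |P.coeff i| / C := by positivity
  linarith only [h1, h3, h4, h5]

theorem sup_thm : SUPStmt := by
  classical
  intro d C₀ hC₀
  obtain ⟨C₁, hC₁, hrim⟩ := rim_thm rmg_thm gvi_thm d
  obtain ⟨C₂, hC₂, hnode⟩ := coeff_node d
  have hl2 : 0 < Real.log 2 := Real.log_pos (by norm_num)
  have hl2' : 1 / 2 < Real.log 2 := by
    have := Real.log_two_gt_d9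
    linarith only [hl2, this]
  have hlC₂ : 0 ≤ Real.log C₂ := Real.log_nonneg hC₂
  have hlC₀ : 0 ≤ Real.log (1 + C₀) := Real.log_nonneg (by linarith only [hC₀])
  have hd0 : (0 : ℝ) ≤ d := Nat.cast_nonneg d
  obtain ⟨C, hC⟩ : ∃ C, C = 1 + 4 * (1 + C₁) + Real.log C₂ + Real.log (1 + C₀) +
    2 * d * (1 + C₁) := ⟨_, rfl⟩
  have hdC : 0 ≤ 2 * d * (1 + C₁) := by positivity
  refine ⟨C, by rw [hC]; linarith only [hC₁, hlC₂, hlC₀, hdC], ?_⟩
  intro Ω Λ _ p lam T L e₁ β ψ P hp hT he₁ htime hdeg hψ hline hβ hβ1 hL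
  have hp0 := hp.nonneg
  -- the deficit of a line
  set def' : Λ → ℝ := fun l => L * Real.log 2 - H (Pool.Agent.H49.Ent.cond p lam l) T with hdef
  have hcardL : ∀ (q : Ω → ℝ), IsLaw q → H q T ≤ L * Real.log 2 := by
    intro q hq
    have h1 := H_le_log_card hq.nonneg hq.sum_one T (Finset.range (2 ^ L))
      (fun ω _ => Finset.mem_range.2 (hT ω))
    rw [Finset.card_range] at h1
    push_cast at h1
    rwa [Real.log_pow] at h1
  have hdefpos : ∀ ω, 0 < p ω → 0 ≤ def' (lam ω) := by
    intro ω hω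
    have hq : IsLaw (Pool.Agent.H49.Ent.cond p lam (lam ω)) :=
      ⟨fun a => cond_nonneg hp0 _ _ a, sum_cond p _ (law_pos hp0 lam hω).ne'⟩
    have := hcardL _ hq
    simp only [hdef]
    linarith only [this]
  have hmean : Ex p (fun ω => def' (lam ω)) ≤ e₁ := by
    have h1 : Ex p (fun ω => H (Pool.Agent.H49.Ent.cond p lam (lam ω)) T) = CH p T lam :=
      CDF.Ex_H hp0 T lam
    have h2 : Ex p (fun ω => def' (lam ω)) = L * Real.log 2 -
        Ex p (fun ω => H (Pool.Agent.H49.Ent.cond p lam (lam ω)) T) := by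
      have e := Ex_sub p (fun _ => L * Real.log 2)
        (fun ω => H (Pool.Agent.H49.Ent.cond p lam (lam ω)) T)
      rw [Ex_const hp.sum_one] at e
      exact e
    rw [h2, h1]
    exact htime
  set t : ℝ := (e₁ + 1) / β with ht
  have ht1 : 1 ≤ t := by
    rw [ht, le_div_iff₀ hβ]
    linarith only [he₁, hβ1]
  have hCt : C * (e₁ + 1) / β = C * t := by rw [ht]; ring
  rw [hCt] at hL ⊢
  -- Markov
  have hmark : Pr p {ω | t < def' (lam ω)} ≤ β := by
    have h1 : t * Pr p {ω | t < def' (lam ω)} ≤ Ex p (fun ω => def' (lam ω)) := by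
      rw [CDF.Pr_eq, Finset.mul_sum]
      unfold Ex
      refine Finset.sum_le_sum fun ω _ => ?_
      rcases (hp0 ω).eq_or_lt with h0 | h0
      · rw [← h0]
        simp
      · by_cases hE : ω ∈ {ω | t < def' (lam ω)}
        · rw [if_pos hE, mul_comm]
          exact mul_le_mul_of_nonneg_left (le_of_lt hE) h0.le
        · rw [if_neg hE, mul_zero]
          exact mul_nonneg h0.le (hdefpos ω h0)
    have h2 : t * Pr p {ω | t < def' (lam ω)} ≤ t * β := by
      refine h1.trans (hmean.trans ?_)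
      rw [ht, div_mul_cancel₀ _ hβ.ne']
      linarith only
    exact le_of_mul_le_mul_left h2 (by linarith only [ht1])
  refine le_trans ?_ hmark
  rw [CDF.Pr_eq, CDF.Pr_eq]
  refine Finset.sum_le_sum fun ω _ => ?_
  rcases (hp0 ω).eq_or_lt with h0 | h0
  · simp [← h0]
  by_cases hE : ω ∈ {ω | ∃ i, Real.exp (C * t) < |(P (lam ω)).coeff i|}
  swap
  · rw [if_neg hE]
    split_ifs
    exacts [h0.le, le_rfl]
  rw [if_pos hE]
  have hgoal : ω ∈ {ω | t < def' (lam ω)} := by
    obtain ⟨i, hi⟩ := hE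
    by_contra hcon
    have hcon' : def' (lam ω) ≤ t := not_lt.1 hcon
    have hi0 : 0 < |(P (lam ω)).coeff i| := (Real.exp_pos _).trans hi
    obtain ⟨s, hs, hs2⟩ := hnode (P (lam ω)) (hdeg _) i hi0
    set S : ℝ := |(P (lam ω)).coeff i| / C₂ with hS
    have hS0 : 0 < S := by positivity
    have hlogS : C * t - Real.log C₂ < Real.log S := by
      rw [hS, Real.log_div hi0.ne' (by linarith only [hC₂])]
      have := Real.log_lt_log (Real.exp_pos _) hi
      rw [Real.log_exp] at this
      linarith only [this]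
    set q := Pool.Agent.H49.Ent.cond p lam (lam ω) with hq0
    have hq : IsLaw q :=
      ⟨fun a => cond_nonneg hp0 _ _ a, sum_cond p _ (law_pos hp0 lam h0).ne'⟩
    have hr := hrim Ω q (2 ^ L) T (P (lam ω)) S hq hT (hdeg _) hS0 ⟨s, hs, hs2⟩
    have hM : ((2 ^ L : ℕ) : ℝ) = 2 ^ L := by push_cast; rfl
    rw [hM, Real.log_pow] at hr
    have hdl : L * Real.log 2 - H q T = def' (lam ω) := rfl
    rw [hdl] at hr
    -- values on the line
    have hvals : ∀ ω', 0 < q ω' → |(P (lam ω)).eval ((T ω' : ℝ) / 2 ^ L)| ≤ 1 + C₀ := by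
      intro ω' hω'
      obtain ⟨h1, h2⟩ := (cond_pos_iff hp0 _ _ ω').1 hω'
      have h3 := hline ω' h1
      rw [h2] at h3
      have h4 := hψ ω' h1
      have := abs_sub_abs_le_abs_sub ((P (lam ω)).eval ((T ω' : ℝ) / 2 ^ L)) (ψ ω')
      rw [abs_sub_comm] at this
      linarith only [h3, h4, this]
    have h2d : 2 * d * (def' (lam ω) + C₁) ≤ 2 * d * (1 + C₁) * t := by
      have h1 : def' (lam ω) + C₁ ≤ (1 + C₁) * t := by nlinarith only [hcon', hC₁, ht1]
      have := mul_le_mul_of_nonneg_left h1 (by positivity : (0 : ℝ) ≤ 2 * d)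
      linarith only [this]
    by_cases hcase : S / (2 ^ L) ^ d ≤ 1 + C₀
    · have h1 : Ex q (fun ω' => Real.log (max |(P (lam ω)).eval ((T ω' : ℝ) / 2 ^ L)|
          (S / (2 ^ L) ^ d))) ≤ Real.log (1 + C₀) := by
        have h2 : Real.log (1 + C₀) = Ex q (fun _ => Real.log (1 + C₀)) :=
          (Ex_const hq.sum_one _).symm
        rw [h2]
        refine Ex_mono hq.nonneg fun ω' hω' => ?_
        refine Real.log_le_log (lt_of_lt_of_le (by positivity) (le_max_right _ _)) ?_
        exact max_le (hvals ω' hω') hcase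
      have h3 : C * t ≤ Real.log C₂ + Real.log (1 + C₀) + 2 * d * (1 + C₁) * t := by linarith only [hlogS, hr, h2d, h1]
      have h4 : Real.log C₂ ≤ Real.log C₂ * t := by nlinarith only [hlC₂, ht1]
      have h5 : Real.log (1 + C₀) ≤ Real.log (1 + C₀) * t := by nlinarith only [hlC₀, ht1]
      have h6 : C * t = t + 4 * (1 + C₁) * t + Real.log C₂ * t + Real.log (1 + C₀) * t +
        2 * d * (1 + C₁) * t := by rw [hC]; ring
      have h7 : 0 ≤ 4 * (1 + C₁) * t := by positivity
      linarith only [ht1, hlogS, hr, h2d, h1, h4, h5, h6, h7]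
    · push Not at hcase
      have h1 : Ex q (fun ω' => Real.log (max |(P (lam ω)).eval ((T ω' : ℝ) / 2 ^ L)|
          (S / (2 ^ L) ^ d))) ≤ Real.log S - d * (L * Real.log 2) := by
        have h2 : Real.log S - d * (L * Real.log 2) =
            Ex q (fun _ => Real.log S - d * (L * Real.log 2)) := (Ex_const hq.sum_one _).symm
        rw [h2]
        refine Ex_mono hq.nonneg fun ω' hω' => ?_
        rw [max_eq_right ((hvals ω' hω').trans hcase.le), Real.log_div hS0.ne' (by positivity),
          Real.log_pow, Real.log_pow]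
      have h3 : d * (L * Real.log 2) ≤ 2 * d * (def' (lam ω) + C₁) := by linarith only [hr, h1]
      rcases Nat.eq_zero_or_pos d with hd | hd
      · -- constants
        have hq1 : ∃ ω', 0 < q ω' := by
          by_contra hcon2
          push Not at hcon2
          have : ∑ ω', q ω' ≤ 0 := Finset.sum_nonpos fun ω' _ => hcon2 ω'
          rw [hq.sum_one] at this
          linarith only [this]
        obtain ⟨ω', hω'⟩ := hq1
        have h4 := hvals ω' hω'
        have h5 : (P (lam ω)).natDegree = 0 := by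
          have := hdeg (lam ω)
          omega
        have h6 : ∀ y : ℝ, (P (lam ω)).eval y = (P (lam ω)).coeff 0 := by
          intro y
          conv_lhs => rw [Polynomial.eq_C_of_natDegree_eq_zero h5]
          exact Polynomial.eval_C
        rw [h6] at h4 hs2
        rw [hd, pow_zero, div_one] at hcase
        linarith only [hs2, hcase, h4]
      · have hd' : (0 : ℝ) < d := by exact_mod_cast hd
        have h4 : L * Real.log 2 ≤ 2 * (def' (lam ω) + C₁) := by
          have : (d : ℝ) * (L * Real.log 2) ≤ d * (2 * (def' (lam ω) + C₁)) := by linarith only [hr, h1]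
          exact le_of_mul_le_mul_left this hd'
        have h5 : (L : ℝ) / 2 ≤ L * Real.log 2 := by
          have : (0 : ℝ) ≤ L := Nat.cast_nonneg L
          nlinarith only [hl2']
        have h6 : def' (lam ω) + C₁ ≤ (1 + C₁) * t := by nlinarith only [hcon', hC₁, ht1]
        have h7 : C * t = t + 4 * (1 + C₁) * t + Real.log C₂ * t + Real.log (1 + C₀) * t +
          2 * d * (1 + C₁) * t := by rw [hC]; ring
        have h8 : 0 ≤ Real.log C₂ * t := by positivity
        have h9 : 0 ≤ Real.log (1 + C₀) * t := by positivity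
        have h10 : 0 ≤ 2 * d * (1 + C₁) * t := by positivity
        linarith only [hL, ht1, h4, h5, h6, h7, h8, h9, h10]
  rw [if_pos hgoal]

end Pool.KBX
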